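import Pool.Agent.W872.SV.Stm

set_option autoImplicit false

namespace W872.SV.Num

open Finset Filter W872.SV

theorem pow_ineq (n : ℕ) (hn : 500000000 ≤ n) : n ≤ 2 ^ (n / 10000) := by
  obtain ⟨k, hk⟩ : ∃ k, k = n / 10000 := ⟨_, rfl⟩
  obtain ⟨q, hq⟩ : ∃ q, q = k / 2 := ⟨_, rfl⟩
  rw [← hk]
  have hk1 : 50000 ≤ k := by omega
  have h1 : q + 1 ≤ 2 ^ q := Nat.lt_two_pow_self
  have h2 : (q + 1) * (q + 1) ≤ 2 ^ q * 2 ^ q := Nat.mul_le_mul h1 h1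
  have h3 : 2 ^ q * 2 ^ q ≤ 2 ^ k := by
    rw [← pow_add]; exact Nat.pow_le_pow_right (by norm_num) (by omega)
  have h4 : n ≤ (q + 1) * (q + 1) := by
    have h5 : n ≤ 20000 * q + 19999 := by omega
    have h6 : 25000 ≤ q := by omega
    nlinarith
  omega

theorem main : PartNUM := by
  refine ⟨500000000, fun n hn a b N ha hb hN => ?_⟩
  have hp := pow_ineq n hn
  obtain ⟨s, hs⟩ : ∃ s, s = n / 10000 := ⟨_, rfl⟩
  obtain ⟨m, hm⟩ : ∃ m, m = n / 240 := ⟨_, rfl⟩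
  obtain ⟨u, hu⟩ : ∃ u, u = (n - 2) / 4 := ⟨_, rfl⟩
  rw [← hs] at hp
  rw [← hm] at ha
  rw [← hu] at hb
  have hC : (n.choose 2 : ℝ) = (n : ℝ) * ((n : ℝ) - 1) / 2 := Nat.cast_choose_two ℝ n
  have hnR : (500000000 : ℝ) ≤ n := by exact_mod_cast hn
  have hsR : (s : ℝ) ≤ n / 10000 := by
    have h : s * 10000 ≤ n := by omega
    have h' : (s : ℝ) * 10000 ≤ n := by exact_mod_cast h
    linarith
  have hmU : (m : ℝ) ≤ n / 240 := by
    have h : m * 240 ≤ n := by omega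
    have h' : (m : ℝ) * 240 ≤ n := by exact_mod_cast h
    linarith
  have hmL : (n : ℝ) / 240 - 1 ≤ m := by
    have h : n ≤ m * 240 + 240 := by omega
    have h' : (n : ℝ) ≤ m * 240 + 240 := by exact_mod_cast h
    linarith
  have huU : (u : ℝ) ≤ n / 4 := by
    have h : u * 4 ≤ n := by omega
    have h' : (u : ℝ) * 4 ≤ n := by exact_mod_cast h
    linarith
  have huL : (n : ℝ) / 4 - 2 ≤ u := by
    have h : n ≤ u * 4 + 8 := by omega
    have h' : (n : ℝ) ≤ u * 4 + 8 := by exact_mod_cast h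
    linarith
  have hs0 : (0 : ℝ) ≤ s := Nat.cast_nonneg _
  have hm0 : (0 : ℝ) ≤ m := Nat.cast_nonneg _
  have hu0 : (0 : ℝ) ≤ u := Nat.cast_nonneg _
  have hnp : (n : ℝ) ≤ (2 : ℝ) ^ (s : ℝ) := by
    rw [Real.rpow_natCast]; exact_mod_cast hp
  set C : ℝ := (n.choose 2 : ℝ) with hCdef
  have two : (1 : ℝ) < 2 := by norm_num
  -- bound for a
  have hA : (a : ℝ) ≤ (2 : ℝ) ^ ((199 / 200 : ℝ) * C - 1) := by
    have h1 : (a : ℝ) * (2 : ℝ) ^ ((m : ℝ) * ((n : ℝ) - 2 * m)) ≤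
        (n : ℝ) ^ 4 * (n : ℝ) ^ n * (2 : ℝ) ^ C := by
      have h2 : ((m * (n - 2 * m) : ℕ) : ℝ) = (m : ℝ) * ((n : ℝ) - 2 * m) := by
        rw [Nat.cast_mul, Nat.cast_sub (by omega)]; push_cast; ring
      rw [← h2, hCdef, Real.rpow_natCast, Real.rpow_natCast]
      have h3 : a * 2 ^ (m * (n - 2 * m)) ≤ n ^ 4 * n ^ n * 2 ^ (n.choose 2) :=
        ha.trans (Nat.mul_le_mul_right _ (Nat.mul_le_mul_left _ (Nat.factorial_le_pow n)))
      exact_mod_cast h3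
    have h4 : (n : ℝ) ^ 4 * (n : ℝ) ^ n ≤ (2 : ℝ) ^ ((s : ℝ) * (n + 4)) := by
      rw [← pow_add, Real.rpow_mul (by norm_num)]
      have : (n : ℝ) ^ (4 + n) = (n : ℝ) ^ (((4 + n : ℕ)) : ℝ) := (Real.rpow_natCast _ _).symm
      rw [this]
      have e : (((4 + n : ℕ)) : ℝ) = (n : ℝ) + 4 := by push_cast; ring
      rw [e]
      exact Real.rpow_le_rpow (Nat.cast_nonneg _) hnp (by positivity)
    have h5 : (a : ℝ) * (2 : ℝ) ^ ((m : ℝ) * ((n : ℝ) - 2 * m)) ≤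
        (2 : ℝ) ^ ((199 / 200 : ℝ) * C - 1) * (2 : ℝ) ^ ((m : ℝ) * ((n : ℝ) - 2 * m)) := by
      refine h1.trans ((mul_le_mul_of_nonneg_right h4 (by positivity)).trans ?_)
      rw [← Real.rpow_add (by norm_num), ← Real.rpow_add (by norm_num)]
      refine Real.rpow_le_rpow_of_exponent_le two.le ?_
      have k1 : ((n : ℝ) / 240 - 1) * (n * (119 / 120)) ≤ (m : ℝ) * ((n : ℝ) - 2 * m) := by
        have : (n : ℝ) * (119 / 120) ≤ (n : ℝ) - 2 * m := by linarith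
        exact mul_le_mul hmL this (by positivity) hm0
      have k2 : (s : ℝ) * (n + 4) ≤ n / 10000 * (n + 4) :=
        mul_le_mul_of_nonneg_right hsR (by positivity)
      rw [hC]
      nlinarith
    exact le_of_mul_le_mul_right h5 (by positivity)
  -- bound for b
  have hB : (b : ℝ) ≤ (2 : ℝ) ^ ((199 / 200 : ℝ) * C - 1) := by
    have hN' : (N : ℝ) ≤ (2 : ℝ) ^ ((n : ℝ) / 4) := by
      have h1 : (N : ℝ) ^ 4 ≤ ((2 : ℝ) ^ ((n : ℝ) / 4)) ^ 4 := by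
        rw [← Real.rpow_natCast ((2 : ℝ) ^ ((n : ℝ) / 4)) 4, ← Real.rpow_mul (by norm_num)]
        have e : (n : ℝ) / 4 * ((4 : ℕ) : ℝ) = n := by push_cast; ring
        rw [e, Real.rpow_natCast]
        exact_mod_cast hN
      exact le_of_pow_le_pow_left₀ (by norm_num) (by positivity) h1
    have h1 : (b : ℝ) * (2 : ℝ) ^ ((u : ℝ) * ((n : ℝ) - u)) ≤
        (2 * (n : ℝ) ^ 2 * N) ^ (u : ℝ) * ((n : ℝ) ^ 2 * (2 : ℝ) ^ C) := by
      have h2 : ((u * (n - u) : ℕ) : ℝ) = (u : ℝ) * ((n : ℝ) - u) := by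
        rw [Nat.cast_mul, Nat.cast_sub (by omega)]
      rw [← h2, hCdef, Real.rpow_natCast, Real.rpow_natCast, Real.rpow_natCast]
      exact_mod_cast hb
    have h3 : (2 * (n : ℝ) ^ 2 * N) ^ (u : ℝ) ≤
        (2 : ℝ) ^ ((1 + 2 * (s : ℝ) + n / 4) * u) := by
      rw [Real.rpow_mul (by norm_num)]
      refine Real.rpow_le_rpow (by positivity) ?_ hu0
      rw [Real.rpow_add (by norm_num), Real.rpow_add (by norm_num), Real.rpow_one]
      have h4 : (n : ℝ) ^ 2 ≤ (2 : ℝ) ^ (2 * (s : ℝ)) := by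
        have e : (2 : ℝ) ^ (2 * (s : ℝ)) = ((2 : ℝ) ^ (s : ℝ)) ^ 2 := by
          rw [mul_comm, Real.rpow_mul (by norm_num)]; norm_num
        rw [e]
        exact pow_le_pow_left₀ (Nat.cast_nonneg _) hnp 2
      have h5 : 2 * (n : ℝ) ^ 2 ≤ 2 * (2 : ℝ) ^ (2 * (s : ℝ)) := by linarith
      exact mul_le_mul h5 hN' (Nat.cast_nonneg _) (by positivity)
    have h6 : (n : ℝ) ^ 2 ≤ (2 : ℝ) ^ (2 * (s : ℝ)) := by
      have e : (2 : ℝ) ^ (2 * (s : ℝ)) = ((2 : ℝ) ^ (s : ℝ)) ^ 2 := by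
        rw [mul_comm, Real.rpow_mul (by norm_num)]; norm_num
      rw [e]
      exact pow_le_pow_left₀ (Nat.cast_nonneg _) hnp 2
    have h7 : (b : ℝ) * (2 : ℝ) ^ ((u : ℝ) * ((n : ℝ) - u)) ≤
        (2 : ℝ) ^ ((199 / 200 : ℝ) * C - 1) * (2 : ℝ) ^ ((u : ℝ) * ((n : ℝ) - u)) := by
      have h8 : (2 * (n : ℝ) ^ 2 * N) ^ (u : ℝ) * ((n : ℝ) ^ 2 * (2 : ℝ) ^ C) ≤
          (2 : ℝ) ^ ((1 + 2 * (s : ℝ) + n / 4) * u) * ((2 : ℝ) ^ (2 * (s : ℝ)) * (2 : ℝ) ^ C) :=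
        mul_le_mul h3 (mul_le_mul_of_nonneg_right h6 (by positivity)) (by positivity)
          (by positivity)
      refine h1.trans (h8.trans ?_)
      rw [← Real.rpow_add (by norm_num), ← Real.rpow_add (by norm_num),
        ← Real.rpow_add (by norm_num)]
      refine Real.rpow_le_rpow_of_exponent_le two.le ?_
      have k1 : ((n : ℝ) / 4 - 2) * (n * (49 / 100)) ≤
          (u : ℝ) * ((n : ℝ) - u - 1 - 2 * s - n / 4) := by
        have : (n : ℝ) * (49 / 100) ≤ (n : ℝ) - u - 1 - 2 * s - n / 4 := by linarith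
        exact mul_le_mul huL this (by positivity) hu0
      have k3 : (0 : ℝ) ≤ n * (n - 500000000) := mul_nonneg (Nat.cast_nonneg _) (by linarith)
      rw [hC]
      nlinarith
    exact le_of_mul_le_mul_right h7 (by positivity)
  have h9 : (2 : ℝ) ^ ((199 / 200 : ℝ) * C) = 2 * (2 : ℝ) ^ ((199 / 200 : ℝ) * C - 1) := by
    rw [Real.rpow_sub (by norm_num), Real.rpow_one]; ring
  push_cast
  rw [h9]
  linarith

end W872.SV.Num
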