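import Pool.Agent.W872.SV.Stm

set_option autoImplicit false

namespace W872.SV.QCA
open Finset W872.SV

lemma lg {p p' q q' c d : Prop} (h1 : q ↔ q') (h2 : (p ↔ c) ↔ (q ↔ d))
    (h3 : (p' ↔ c) ↔ (q' ↔ d)) : p ↔ p' := by
  rw [← h1] at h3
  have h4 : (p ↔ c) ↔ (p' ↔ c) := h2.trans h3.symm
  by_cases hc : c
  · simpa [hc] using h4
  · simp only [hc, iff_false] at h4
    exact not_iff_not.1 h4

theorem main : W872.SV.PartCNT → W872.SV.PartCA := by
  classical
  intro hC n i i' j j' φ A hA
  set B : Finset (Fin n) := univ.filter fun x => x ∉ A ∧ φ x ∉ A with hB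
  set D : Finset (Fin n × Fin n) := A ×ˢ B with hD
  have hcard : n - 2 * A.card ≤ B.card := by
    have h1 : (univ : Finset (Fin n)) ⊆ B ∪ (A ∪ A.image φ.symm) := by
      intro x _
      by_cases h1 : x ∈ A
      · simp [h1]
      · by_cases h2 : φ x ∈ A
        · apply mem_union_right
          apply mem_union_right
          exact mem_image.2 ⟨φ x, h2, by simp⟩
        · apply mem_union_left
          simp [hB, h1, h2]
    have h2 := card_le_card h1
    have h3 := card_union_le B (A ∪ A.image φ.symm)
    have h4 := card_union_le A (A.image φ.symm)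
    have h5 : (A.image φ.symm).card ≤ A.card := card_image_le
    rw [card_univ, Fintype.card_fin] at h2
    omega
  have hDc : A.card * (n - 2 * A.card) ≤ D.card := by
    rw [hD, card_product]
    exact Nat.mul_le_mul_left _ hcard
  have hmem : ∀ a b, (a, b) ∈ D ↔ a ∈ A ∧ b ∉ A ∧ φ b ∉ A := by
    intro a b
    simp [hD, hB]
  have key := hC n (univ.filter fun G : SimpleGraph (Fin n) => Rel G i i' j j' φ) A D
    (by
      rintro ⟨a, b⟩ hp
      have := (hmem a b).1 hp
      exact ⟨this.1, this.2.1⟩)
    (by
      intro G hG G' hG' hag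
      have hG1 : Rel G i i' j j' φ := (mem_filter.1 hG).2
      have hG2 : Rel G' i i' j j' φ := (mem_filter.1 hG').2
      have hD1 : ∀ a b, (a, b) ∈ D → (G.Adj a b ↔ G'.Adj a b) := by
        intro a b hab
        obtain ⟨ha, hb, hb'⟩ := (hmem a b).1 hab
        have ha' := hA a ha
        have hne : a ≠ b := fun h => hb (h ▸ ha)
        have h1 := hag (φ a) (φ b) (fun h => ha' ((hmem _ _).1 h).1)
          (fun h => hb' ((hmem _ _).1 h).1)
        have h2 := hG1 a b hne
        have h3 := hG2 a b hne
        exact lg h1 h2 h3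
      ext a b
      by_cases h1 : (a, b) ∈ D
      · exact hD1 a b h1
      · by_cases h2 : (b, a) ∈ D
        · rw [G.adj_comm, G'.adj_comm]
          exact hD1 b a h2
        · exact hag a b h1 h2)
  refine le_trans ?_ key
  exact Nat.mul_le_mul_left _ (Nat.pow_le_pow_right (by norm_num) hDc)

end W872.SV.QCA
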