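import Pool.Agent.W872.SV.Stm

/-! Count for given partner rows (part SV-CB). -/

set_option autoImplicit false

namespace W872.SV.QCB

open Finset

theorem aux {a a' c c' P : Prop} (h1 : (a ↔ c) ↔ P) (h2 : (a' ↔ c') ↔ P) (h3 : c ↔ c') :
    a ↔ a' := by
  have h4 : (a ↔ c) ↔ (a' ↔ c) := by rw [h1, ← h2, h3]
  by_cases hc : c
  · simpa [hc] using h4
  · have h5 : ¬ a ↔ ¬ a' := by simpa [hc] using h4
    exact not_iff_not.1 h5

theorem main : W872.SV.PartCNT → W872.SV.PartCB := by
  classical
  intro hC n u e f ε X he hf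
  set A : Finset (Fin n) := Finset.univ.image e with hA
  have hAc : A.card = u := by
    rw [hA, Finset.card_image_of_injective _ he, Finset.card_univ, Fintype.card_fin]
  have hDc : (A ×ˢ (Finset.univ \ A)).card = u * (n - u) := by
    rw [Finset.card_product, hAc, Finset.card_sdiff_of_subset (Finset.subset_univ A),
      Finset.card_univ, Fintype.card_fin, hAc]
  have hmem : ∀ s, e s ∈ A := fun s => by
    rw [hA]; exact Finset.mem_image_of_mem _ (Finset.mem_univ _)
  have hfA : ∀ s, f s ∉ A := by
    intro s hs
    rw [hA, Finset.mem_image] at hs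
    obtain ⟨t, -, ht⟩ := hs
    exact hf s t ht.symm
  have h := hC n (Finset.univ.filter fun G : SimpleGraph (Fin n) =>
    ∀ s x, ((G.Adj (e s) x ↔ G.Adj (f s) x) ↔ (x ∈ X s ↔ ε s = true))) A
    (A ×ˢ (Finset.univ \ A))
    (by
      intro p hp
      rw [Finset.mem_product, Finset.mem_sdiff] at hp
      exact ⟨hp.1, hp.2.2⟩)
    (by
      intro G hG G' hG' hag
      have hGs := (Finset.mem_filter.1 hG).2
      have hGs' := (Finset.mem_filter.1 hG').2
      have hnD : ∀ a b, a ∉ A → (a, b) ∉ A ×ˢ (Finset.univ \ A) := by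
        intro a b ha h
        exact ha (Finset.mem_product.1 h).1
      have key : ∀ a b, a ∈ A → b ∉ A → (G.Adj a b ↔ G'.Adj a b) := by
        intro a b ha hb
        rw [hA, Finset.mem_image] at ha
        obtain ⟨s, -, rfl⟩ := ha
        have h1 := hGs s b
        have h2 := hGs' s b
        have h3 := hag (f s) b (hnD _ _ (hfA s)) (hnD _ _ hb)
        exact aux h1 h2 h3
      ext a b
      by_cases ha : a ∈ A
      · by_cases hb : b ∈ A
        · refine hag a b ?_ ?_
          · intro h
            exact (Finset.mem_sdiff.1 (Finset.mem_product.1 h).2).2 hb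
          · intro h
            exact (Finset.mem_sdiff.1 (Finset.mem_product.1 h).2).2 ha
        · exact key a b ha hb
      · by_cases hb : b ∈ A
        · rw [G.adj_comm a b, G'.adj_comm a b]
          exact key b a hb ha
        · exact hag a b (hnD _ _ ha) (hnD _ _ hb))
  rw [hDc] at h
  convert h

end W872.SV.QCB
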