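import Pool.Agent.W872.SV.Stm

/-! Project SV: the counting lemma. -/

set_option autoImplicit false

namespace W872.SV.QCNT

open Finset

theorem card_pairs (n : ℕ) :
    (univ.filter fun p : Fin n × Fin n => p.1 < p.2).card = n.choose 2 := by
  rw [card_filter, Fintype.sum_prod_type_right]
  have h : ∀ b : Fin n, (∑ a : Fin n, if a < b then 1 else 0) = (b : ℕ) := by
    intro b
    rw [← card_filter]
    have h2 : (univ.filter fun a : Fin n => a < b) = Iio b := by
      ext a
      simp
    rw [h2, Fin.card_Iio]
  simp only [h]
  rw [Fin.sum_univ_eq_sum_range (fun i => i) n, sum_range_id, Nat.choose_two_right]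

theorem main : W872.SV.PartCNT := by
  classical
  intro n F A D hD hF
  set P : Finset (Fin n × Fin n) := univ.filter fun p => p.1 < p.2 with hP
  let can : Fin n × Fin n → Fin n × Fin n := fun p => if p.1 < p.2 then p else (p.2, p.1)
  have hcan : ∀ p, can p = p ∨ can p = (p.2, p.1) := by
    intro p
    simp only [can]
    split_ifs
    · exact Or.inl rfl
    · exact Or.inr rfl
  set D' := D.image can with hD'
  have hinj : D'.card = D.card := by
    apply card_image_of_injOn
    intro p hp q hq h
    rw [mem_coe] at hp hq
    have hp' := hD p hp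
    have hq' := hD q hq
    rcases hcan p with h1 | h1 <;> rcases hcan q with h2 | h2
    · exact h1.symm.trans (h.trans h2)
    · have h3 : p = (q.2, q.1) := h1.symm.trans (h.trans h2)
      rw [h3] at hp'
      exact absurd hp'.1 hq'.2
    · have h3 : (p.2, p.1) = q := h1.symm.trans (h.trans h2)
      rw [← h3] at hq'
      exact absurd hq'.1 hp'.2
    · have h3 : (p.2, p.1) = (q.2, q.1) := h1.symm.trans (h.trans h2)
      rw [Prod.mk.injEq] at h3
      exact Prod.ext h3.2 h3.1
  have hsub : D' ⊆ P := by
    intro x hx
    obtain ⟨p, hp, rfl⟩ := mem_image.1 hx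
    have hp' := hD p hp
    have hne : p.1 ≠ p.2 := fun h => hp'.2 (h ▸ hp'.1)
    rw [hP, mem_filter]
    refine ⟨mem_univ _, ?_⟩
    simp only [can]
    split_ifs with h
    · exact h
    · exact lt_of_le_of_ne (not_lt.1 h) hne.symm
  have hP0 : (P \ D').card + D.card = n.choose 2 := by
    rw [← card_pairs, ← hP, ← hinj]
    exact card_sdiff_add_card_eq_card hsub
  have hF2 : F.card ≤ 2 ^ (P \ D').card := by
    rw [← card_powerset]
    refine card_le_card_of_injOn (fun G => (P \ D').filter fun p => G.Adj p.1 p.2) ?_ ?_
    · intro G _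
      rw [mem_coe, mem_powerset]
      exact filter_subset _ _
    · intro G hG G' hG' h
      rw [mem_coe] at hG hG'
      have key : ∀ a b : Fin n, a < b → (a, b) ∉ D → (b, a) ∉ D → (G.Adj a b ↔ G'.Adj a b) := by
        intro a b hab h1 h2
        have hmem : (a, b) ∈ P \ D' := by
          rw [mem_sdiff]
          refine ⟨by rw [hP, mem_filter]; exact ⟨mem_univ _, hab⟩, ?_⟩
          intro h3
          obtain ⟨p, hp, h4⟩ := mem_image.1 h3
          rcases hcan p with h5 | h5
          · rw [h5] at h4
            rw [h4] at hp
            exact h1 hp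
          · rw [h5] at h4
            have h6 : p = (b, a) := by
              rw [Prod.mk.injEq] at h4
              exact Prod.ext h4.2 h4.1
            rw [h6] at hp
            exact h2 hp
        have h3 := congrArg (fun s => (a, b) ∈ s) h
        simp only [mem_filter, hmem, true_and] at h3
        exact iff_of_eq h3
      refine hF G hG G' hG' fun a b h1 h2 => ?_
      rcases lt_trichotomy a b with hab | hab | hab
      · exact key a b hab h1 h2
      · subst hab
        exact ⟨fun h => absurd rfl h.ne, fun h => absurd rfl h.ne⟩
      · rw [G.adj_comm, G'.adj_comm]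
        exact key b a hab h2 h1
  calc F.card * 2 ^ D.card ≤ 2 ^ (P \ D').card * 2 ^ D.card := Nat.mul_le_mul_right _ hF2
    _ = 2 ^ (n.choose 2) := by rw [← pow_add, hP0]

end W872.SV.QCNT
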