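import Pool.Agent.W872.SV.QDEG

/-! Project SV, part EDG: the deck determines the degrees. -/

set_option autoImplicit false

namespace W872.SV.QEDG

open scoped Classical
open Finset W872.SV W872.SV.QDEG

/-- Sum of the degrees. -/
noncomputable def E {n : ℕ} (G : SimpleGraph (Fin n)) : ℤ := ∑ x, (dg G x : ℤ)

theorem E_sw {n : ℕ} (G : SimpleGraph (Fin n)) (i : Fin n) :
    E (sw G i) = E G + 2 * ((n : ℤ) - 1) - 4 * dg G i := by
  have h : ∀ x, (dg (sw G i) x : ℤ) = (dg G x + 1) - 2 * (if G.Adj i x then (1 : ℤ) else 0) +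
      (if x = i then ((n : ℤ) - 2 - 2 * dg G i) else 0) := by
    intro x
    by_cases hx : x = i
    · subst hx
      have h1 := dg_sw_self G x
      have h2 : ¬ G.Adj x x := G.irrefl
      rw [if_neg h2, if_pos rfl]
      omega
    · by_cases ha : G.Adj i x
      · have h1 := dg_sw_adj G hx ha
        rw [if_pos ha, if_neg hx]
        omega
      · have h1 := dg_sw_nadj G hx ha
        rw [if_neg ha, if_neg hx]
        omega
  have h2 : ∑ x : Fin n, (if G.Adj i x then (1 : ℤ) else 0) = dg G i := by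
    unfold dg
    rw [card_filter]
    push_cast
    rfl
  have h3 : ∑ x : Fin n, (if x = i then ((n : ℤ) - 2 - 2 * dg G i) else 0) =
      (n : ℤ) - 2 - 2 * dg G i := by
    rw [Finset.sum_ite_eq' univ i]
    simp
  unfold E
  rw [sum_congr rfl (fun x _ => h x), sum_add_distrib, sum_sub_distrib, sum_add_distrib,
    ← mul_sum, h2, h3]
  simp only [sum_const, card_univ, Fintype.card_fin, nsmul_eq_mul, mul_one]
  ring

theorem E_iso {n : ℕ} {G H : SimpleGraph (Fin n)} (e : G ≃g H) : E H = E G := by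
  unfold E
  rw [← Equiv.sum_comp e.toEquiv]
  refine sum_congr rfl fun x _ => ?_
  have := dg_iso e x
  exact_mod_cast this

theorem main : W872.SV.PartEDG := by
  intro n hn G H σ hσ i
  have h1 : ∀ i, E G + 2 * ((n : ℤ) - 1) - 4 * dg G i =
      E H + 2 * ((n : ℤ) - 1) - 4 * dg H (σ i) := by
    intro i
    obtain ⟨e⟩ := hσ i
    rw [← E_sw, ← E_sw]
    exact (E_iso e).symm
  have h2 : ∑ i : Fin n, (dg H (σ i) : ℤ) = E H := Equiv.sum_comp σ (fun x => (dg H x : ℤ))
  have h3 : ∑ i : Fin n, (E G + 2 * ((n : ℤ) - 1) - 4 * dg G i) =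
      ∑ i : Fin n, (E H + 2 * ((n : ℤ) - 1) - 4 * dg H (σ i)) :=
    sum_congr rfl fun i _ => h1 i
  rw [sum_sub_distrib, sum_sub_distrib, ← mul_sum, ← mul_sum, h2] at h3
  simp only [sum_const, card_univ, Fintype.card_fin, nsmul_eq_mul] at h3
  have h4 : ∑ i : Fin n, (dg G i : ℤ) = E G := rfl
  rw [h4] at h3
  have h5 : ((n : ℤ) - 4) * (E G - E H) = 0 := by linarith
  have h6 : E G = E H := by
    rcases mul_eq_zero.1 h5 with h | h
    · exfalso; apply hn; omega
    · linarith
  have h7 := h1 i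
  rw [h6] at h7
  omega

end W872.SV.QEDG
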