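import Pool.Agent.W872.SV.Stm

/-!
Project SV: a map without fixed points on `K` has an independent set of a quarter of `K`.
-/

set_option autoImplicit false

namespace W872.SV.QIND

open Finset

theorem aux {n : ℕ} (f : Fin n → Fin n) : ∀ (k : ℕ) (K : Finset (Fin n)), K.card = k →
    (∀ i ∈ K, f i ≠ i) → ∃ U : Finset (Fin n), U ⊆ K ∧ K.card ≤ 4 * U.card ∧ ∀ i ∈ U, f i ∉ U := by
  classical
  intro k
  induction k using Nat.strong_induction_on with
  | _ k ih =>
    intro K hK hf
    rcases K.eq_empty_or_nonempty with rfl | hne
    · exact ⟨∅, by simp⟩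
    have hex : ∃ i ∈ K, (K.filter (fun j => f j = i)).card ≤ 1 := by
      by_contra hcon
      push Not at hcon
      have h1 : ∑ i ∈ K, 2 ≤ ∑ i ∈ K, (K.filter (fun j => f j = i)).card :=
        Finset.sum_le_sum (fun i hi => hcon i hi)
      have h2 : ∑ i ∈ K, (K.filter (fun j => f j = i)).card = (K.filter (fun j => f j ∈ K)).card :=
        Finset.sum_card_fiberwise_eq_card_filter K K f
      have h3 : (K.filter (fun j => f j ∈ K)).card ≤ K.card := Finset.card_filter_le _ _
      have h4 : 0 < K.card := hne.card_pos
      rw [Finset.sum_const, smul_eq_mul] at h1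
      omega
    obtain ⟨i, hi, hc⟩ := hex
    set F := K.filter (fun j => f j = i) with hF
    set K' := K \ (insert i (insert (f i) F)) with hK'
    have hlt : K'.card < k := by
      rw [← hK]
      apply Finset.card_lt_card
      refine ⟨Finset.sdiff_subset, fun h => ?_⟩
      have := h hi
      simp [hK'] at this
    obtain ⟨U, hU, hU4, hUf⟩ := ih K'.card hlt K' rfl
      (fun j hj => hf j (Finset.sdiff_subset hj))
    have hiU : i ∉ U := fun h => by
      have := hU h
      simp [hK'] at this
    have hfiU : f i ∉ U := fun h => by
      have := hU h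
      simp [hK'] at this
    refine ⟨insert i U, ?_, ?_, ?_⟩
    · intro x hx
      rcases Finset.mem_insert.1 hx with rfl | hx
      · exact hi
      · exact Finset.sdiff_subset (hU hx)
    · rw [Finset.card_insert_of_notMem hiU]
      have h5 : K.card ≤ K'.card + (insert i (insert (f i) F)).card := by
        have := Finset.card_le_card_sdiff_add_card (t := insert i (insert (f i) F)) (s := K)
        rw [hK']
        exact this
      have h6 : (insert i (insert (f i) F)).card ≤ 3 := by
        refine (Finset.card_insert_le _ _).trans ?_
        have := Finset.card_insert_le (f i) F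
        omega
      omega
    · intro x hx
      rw [Finset.mem_insert, not_or]
      rcases Finset.mem_insert.1 hx with rfl | hx
      · exact ⟨hf x hi, hfiU⟩
      · refine ⟨fun h => ?_, hUf x hx⟩
        have hxK' := hU hx
        rw [hK', Finset.mem_sdiff] at hxK'
        apply hxK'.2
        exact Finset.mem_insert_of_mem (Finset.mem_insert_of_mem
          (Finset.mem_filter.2 ⟨hxK'.1, h⟩))

theorem main : W872.SV.PartIND := fun _ K f hf => aux f K.card K rfl hf

end W872.SV.QIND
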