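import Pool.Agent.W872.SV.Stm

/-! Project SV, part STR: structure of a graph that is not switching-reconstructible. -/

set_option autoImplicit false

namespace W872.SV.QSTR

open W872.SV

theorem aux (P Q R S G : Prop) (t1 : P → ¬ R) (t2 : Q → ¬ S) (t3 : P → ¬ Q) (t4 : R → ¬ S) :
    ((G ↔ (¬ P ∧ ¬ R)) ↔ (¬ Q ∧ ¬ S)) ↔ ¬ (G ↔ ¬ ((P ∨ Q) ↔ (R ∨ S))) := by
  by_cases hG : G <;> by_cases hP : P <;> by_cases hQ : Q <;> by_cases hR : R <;>
    by_cases hS : S <;> simp_all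

theorem aux2 (A G P Q : Prop) (h6 : (A ↔ Q) ↔ (G ↔ P)) : A ↔ ((G ↔ P) ↔ Q) := by
  by_cases hG : G <;> by_cases hP : P <;> by_cases hQ : Q <;> by_cases hR : A <;> simp_all

theorem aux3 (G P : Prop) : ((G ↔ P) ↔ P) ↔ G := by
  by_cases hG : G <;> by_cases hP : P <;> simp [hG, hP]

theorem key {n : ℕ} {G H : SimpleGraph (Fin n)} {i s : Fin n} (θ : sw G i ≃g sw H s)
    (v : Fin n) (hv : θ v = s) (a b : Fin n) (hab : a ≠ b) :
    H.Adj (θ a) (θ b) ↔ ((G.Adj a b ↔ (a ≠ i ∧ b ≠ i)) ↔ (a ≠ v ∧ b ≠ v)) := by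
  have h := θ.map_rel_iff (a := a) (b := b)
  have h1 : (sw H s).Adj (θ a) (θ b) ↔ (θ a ≠ θ b ∧ (H.Adj (θ a) (θ b) ↔ (θ a ≠ s ∧ θ b ≠ s))) :=
    Iff.rfl
  have h2 : (sw G i).Adj a b ↔ (a ≠ b ∧ (G.Adj a b ↔ (a ≠ i ∧ b ≠ i))) := Iff.rfl
  have h3 : θ a ≠ θ b := fun e => hab (θ.injective e)
  have h4 : θ a = s ↔ a = v :=
    ⟨fun e => θ.injective (e.trans hv.symm), fun e => (congrArg θ e).trans hv⟩
  have h5 : θ b = s ↔ b = v :=
    ⟨fun e => θ.injective (e.trans hv.symm), fun e => (congrArg θ e).trans hv⟩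
  have h6 : (sw H s).Adj (θ a) (θ b) ↔ (sw G i).Adj a b := h
  rw [h1, h2] at h6
  simp only [ne_eq, h4, h5] at h6 ⊢
  have h3' : ¬ (θ a = θ b) := h3
  have hab' : ¬ (a = b) := hab
  simp only [h3', hab', not_false_eq_true, true_and] at h6
  exact aux2 _ _ _ _ h6

theorem key2 {n : ℕ} {G H : SimpleGraph (Fin n)} {i s : Fin n} (θ : sw G i ≃g sw H s)
    (v : Fin n) (hv : θ v = s) (hvi : v ≠ i) (a b : Fin n) (hab : a ≠ b) :
    H.Adj (θ a) (θ b) ↔ ¬ (G.Adj a b ↔ Cut i v a b) := by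
  rw [key θ v hv a b hab]
  unfold Cut
  have hab' : ¬ (a = b) := hab
  have hvi' : ¬ (v = i) := hvi
  have t1 : a = i → b ≠ i := fun h1 h2 => hab (h1.trans h2.symm)
  have t2 : a = v → b ≠ v := fun h1 h2 => hab (h1.trans h2.symm)
  have t3 : a = i → a ≠ v := fun h1 h2 => hvi (h2.symm.trans h1)
  have t4 : b = i → b ≠ v := fun h1 h2 => hvi (h2.symm.trans h1)
  exact aux (a = i) (a = v) (b = i) (b = v) (G.Adj a b) t1 t2 t3 t4

theorem main : W872.SV.PartSTR := by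
  intro n G hG
  unfold Recon at hG
  push Not at hG
  obtain ⟨H, ⟨σ, hσ⟩, hH⟩ := hG
  have θ : ∀ i, sw G i ≃g sw H (σ i) := fun i => Classical.choice (hσ i)
  let v : Fin n → Fin n := fun i => (θ i).symm (σ i)
  have hv : ∀ i, θ i (v i) = σ i := fun i => (θ i).apply_symm_apply (σ i)
  have hvi : ∀ i, v i ≠ i := by
    intro i hi
    have hii : θ i i = σ i := by
      have := hv i
      rw [hi] at this
      exact this
    have hiso : ∀ a b, H.Adj (θ i a) (θ i b) ↔ G.Adj a b := by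
      intro a b
      by_cases hab : a = b
      · subst hab
        simp
      · rw [key (θ i) i hii a b hab]
        exact aux3 _ _
    exact (not_isEmpty_iff.2 ⟨⟨(θ i).toEquiv, fun {a b} => hiso a b⟩⟩ hH).elim
  refine ⟨v, hvi, ?_⟩
  intro i j
  refine ⟨(θ i).toEquiv.trans (θ j).toEquiv.symm, ?_⟩
  intro a b hab
  have h1 := key2 (θ i) (v i) (hv i) (hvi i) a b hab
  set φ : Equiv.Perm (Fin n) := (θ i).toEquiv.trans (θ j).toEquiv.symm with hφ
  have hφ' : ∀ x, θ j (φ x) = θ i x := fun x => (θ j).toEquiv.apply_symm_apply (θ i x)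
  have h2 := key2 (θ j) (v j) (hv j) (hvi j) (φ a) (φ b) (fun e => hab (φ.injective e))
  rw [hφ', hφ'] at h2
  have h3 := h1.symm.trans h2
  exact not_iff_not.1 h3

end W872.SV.QSTR
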