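import Pool.Agent.W872.SV.Stm

/-! Assembly of project SV. -/

set_option autoImplicit false

namespace W872.SV

open Finset Filter

open Classical in
theorem few (hSTR : PartSTR) (hCASE : PartCASE) (hA : PartACNT) (hB : PartBCNT) (hNS : PartNS)
    (hNUM : PartNUM) : ∃ n₀ : ℕ, ∀ n ≥ n₀,
    ((univ.filter fun G : SimpleGraph (Fin n) => ¬ Recon G).card : ℝ) ≤
      (2 : ℝ) ^ ((199 / 200 : ℝ) * (n.choose 2 : ℝ)) := by
  obtain ⟨n1, h1⟩ := hNS
  obtain ⟨n2, h2⟩ := hNUM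
  refine ⟨max (max n1 n2) 10, fun n hn => ?_⟩
  have hn1 : n1 ≤ n := le_trans (le_trans (le_max_left _ _) (le_max_left _ _)) hn
  have hn2 : n2 ≤ n := le_trans (le_trans (le_max_right _ _) (le_max_left _ _)) hn
  have hn3 : 10 ≤ n := le_trans (le_max_right _ _) hn
  have hA' := hA n (n / 60) (n / 240) (by omega) (by omega)
  have hB' := hB n (n / 60) ((n - 2) / 4) (by omega)
  have key := h2 n hn2 (setA n (n / 60)).card (setB n (n / 60)).card (NS n (n / 60 + 6))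
    hA' hB' (h1 n hn1)
  refine le_trans ?_ key
  norm_cast
  refine le_trans (card_le_card ?_) (card_union_le _ _)
  intro G hG
  rw [mem_filter] at hG
  obtain ⟨v, hv, hφ⟩ := hSTR n G hG.2
  rw [mem_union]
  exact hCASE n (n / 60) G v (by omega) hv hφ

theorem result (hSTR : PartSTR) (hIND : PartIND) (hCNT : PartCNT) (hCA : PartCNT → PartCA)
    (hCB : PartCNT → PartCB) (hCASE : PartCASE) (hACNT : PartCA → PartIND → PartACNT)
    (hBCNT : PartCB → PartIND → PartBCNT) (hNS : PartNS) (hNUM : PartNUM) (hEDG : PartEDG)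
    (hDEG : PartEDG → PartDEG) :
    (∃ n₀ : ℕ, ∀ n ≥ n₀,
      ((open Classical in univ.filter fun G : SimpleGraph (Fin n) => ¬ Recon G).card : ℝ) ≤
        (2 : ℝ) ^ ((199 / 200 : ℝ) * (n.choose 2 : ℝ))) ∧
    (∀ n : ℕ, n ≠ 4 → ∀ G : SimpleGraph (Fin n),
      (∃ i, ∀ v, v ≠ i → (G.Adj i v → dg G i + dg G v ≠ n) ∧
        (¬ G.Adj i v → dg G i + dg G v + 2 ≠ n)) → Recon G) ∧
    (∀ n : ℕ, n ≠ 4 → ∀ G : SimpleGraph (Fin n),
      ((∃ i, ∀ v, dg G i + dg G v + 2 < n) ∨ (∃ i, ∀ v, n < dg G i + dg G v)) → Recon G) := by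
  refine ⟨few hSTR hCASE (hACNT (hCA hCNT) hIND) (hBCNT (hCB hCNT) hIND) hNS hNUM,
    hDEG hEDG, ?_⟩
  intro n hn G h
  rcases h with ⟨i, hi⟩ | ⟨i, hi⟩
  · exact hDEG hEDG n hn G ⟨i, fun v _ => ⟨fun _ => by have := hi v; omega,
      fun _ => by have := hi v; omega⟩⟩
  · exact hDEG hEDG n hn G ⟨i, fun v _ => ⟨fun _ => by have := hi v; omega,
      fun _ => by have := hi v; omega⟩⟩

end W872.SV
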