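import Mathlib

/-! Switching reconstruction of graphs (MP_e73337_co): definitions and the statements of the
parts of the proof. -/

set_option autoImplicit false

namespace W872.SV

open Finset Filter

open Classical in
/-- The switch of `G` at the vertex `i`: the pairs at `i` are complemented. -/
def sw {n : ℕ} (G : SimpleGraph (Fin n)) (i : Fin n) : SimpleGraph (Fin n) where
  Adj a b := a ≠ b ∧ (G.Adj a b ↔ (a ≠ i ∧ b ≠ i))
  symm := ⟨by
    intro a b h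
    refine ⟨h.1.symm, ?_⟩
    rw [G.adj_comm b a, h.2]
    exact and_comm⟩
  loopless := ⟨fun a h => h.1 rfl⟩

/-- `G` and `H` have the same switching deck. -/
def SameDeck {n : ℕ} (G H : SimpleGraph (Fin n)) : Prop :=
  ∃ σ : Equiv.Perm (Fin n), ∀ i, Nonempty (sw G i ≃g sw H (σ i))

/-- `G` is switching-reconstructible. -/
def Recon {n : ℕ} (G : SimpleGraph (Fin n)) : Prop :=
  ∀ H : SimpleGraph (Fin n), SameDeck G H → Nonempty (G ≃g H)

/-- The pair `ab` has exactly one element in `{s, t}`. -/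
def Cut {n : ℕ} (s t a b : Fin n) : Prop := ¬ ((a = s ∨ a = t) ↔ (b = s ∨ b = t))

/-- `φ` is an isomorphism from `G` switched at `i, i'` to `G` switched at `j, j'`
(for `i ≠ i'`, `j ≠ j'`). -/
def Rel {n : ℕ} (G : SimpleGraph (Fin n)) (i i' j j' : Fin n) (φ : Equiv.Perm (Fin n)) : Prop :=
  ∀ a b, a ≠ b →
    ((G.Adj a b ↔ Cut i i' a b) ↔ (G.Adj (φ a) (φ b) ↔ Cut j j' (φ a) (φ b)))

open Classical in
/-- Number of points moved by `φ`. -/
noncomputable def mv {n : ℕ} (φ : Equiv.Perm (Fin n)) : ℕ :=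
  (univ.filter fun x => φ x ≠ x).card

open Classical in
/-- The rows of `a` and `b` are equal or complementary up to at most `M` positions. -/
def Near {n : ℕ} (G : SimpleGraph (Fin n)) (M : ℕ) (a b : Fin n) : Prop :=
  ∃ ε : Bool, (univ.filter fun x => ¬ ((G.Adj a x ↔ G.Adj b x) ↔ ε = true)).card ≤ M

open Classical in
/-- The degree. -/
noncomputable def dg {n : ℕ} (G : SimpleGraph (Fin n)) (i : Fin n) : ℕ :=
  (univ.filter fun x => G.Adj i x).card

open Classical in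
/-- Case A: some switched copies are isomorphic by a map moving more than `M` points. -/
noncomputable def setA (n M : ℕ) : Finset (SimpleGraph (Fin n)) :=
  univ.filter fun G => ∃ i i' j j' : Fin n, ∃ φ : Equiv.Perm (Fin n),
    Rel G i i' j j' φ ∧ M < mv φ

open Classical in
/-- Case B: all rows but two have a partner row. -/
noncomputable def setB (n M : ℕ) : Finset (SimpleGraph (Fin n)) :=
  univ.filter fun G => ∃ i₀ i₁ : Fin n, ∀ i, i ≠ i₀ → i ≠ i₁ → ∃ j, j ≠ i ∧ Near G (M + 6) i j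

open Classical in
/-- Number of subsets of an `n`-set of size at most `t`. -/
noncomputable def NS (n t : ℕ) : ℕ := (univ.filter fun s : Finset (Fin n) => s.card ≤ t).card

/-- Structure of a non-reconstructible graph. -/
def PartSTR : Prop := ∀ (n : ℕ) (G : SimpleGraph (Fin n)), ¬ Recon G →
  ∃ v : Fin n → Fin n, (∀ i, v i ≠ i) ∧
    ∀ i j, ∃ φ : Equiv.Perm (Fin n), Rel G i (v i) j (v j) φ

/-- A map without fixed points on `K` has a quarter of `K` free of its image. -/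
def PartIND : Prop := ∀ (n : ℕ) (K : Finset (Fin n)) (f : Fin n → Fin n),
  (∀ i ∈ K, f i ≠ i) → ∃ U : Finset (Fin n), U ⊆ K ∧ K.card ≤ 4 * U.card ∧ ∀ i ∈ U, f i ∉ U

/-- Counting lemma: the pairs of `D` are determined by the others. -/
def PartCNT : Prop := ∀ (n : ℕ) (F : Finset (SimpleGraph (Fin n))) (A : Finset (Fin n))
  (D : Finset (Fin n × Fin n)), (∀ p ∈ D, p.1 ∈ A ∧ p.2 ∉ A) →
  (∀ G ∈ F, ∀ G' ∈ F, (∀ a b, (a, b) ∉ D → (b, a) ∉ D → (G.Adj a b ↔ G'.Adj a b)) → G = G') →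
  F.card * 2 ^ D.card ≤ 2 ^ (n.choose 2)

open Classical in
/-- Count for one isomorphism. -/
def PartCA : Prop := ∀ (n : ℕ) (i i' j j' : Fin n) (φ : Equiv.Perm (Fin n))
  (A : Finset (Fin n)), (∀ a ∈ A, φ a ∉ A) →
  (univ.filter fun G : SimpleGraph (Fin n) => Rel G i i' j j' φ).card *
    2 ^ (A.card * (n - 2 * A.card)) ≤ 2 ^ (n.choose 2)

open Classical in
/-- Count for given partner rows. -/
def PartCB : Prop := ∀ (n u : ℕ) (e f : Fin u → Fin n) (ε : Fin u → Bool)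
  (X : Fin u → Finset (Fin n)), Function.Injective e → (∀ s t, f s ≠ e t) →
  (univ.filter fun G : SimpleGraph (Fin n) =>
    ∀ s x, ((G.Adj (e s) x ↔ G.Adj (f s) x) ↔ (x ∈ X s ↔ ε s = true))).card *
    2 ^ (u * (n - u)) ≤ 2 ^ (n.choose 2)

/-- The dichotomy. -/
def PartCASE : Prop := ∀ (n M : ℕ) (G : SimpleGraph (Fin n)) (v : Fin n → Fin n),
  M + 6 < n → (∀ i, v i ≠ i) →
  (∀ i j, ∃ φ : Equiv.Perm (Fin n), Rel G i (v i) j (v j) φ) →
  G ∈ setA n M ∨ G ∈ setB n M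

/-- Size of case A. -/
def PartACNT : Prop := ∀ n M m : ℕ, 4 * m ≤ M + 1 → 2 * m ≤ n →
  (setA n M).card * 2 ^ (m * (n - 2 * m)) ≤ n ^ 4 * n.factorial * 2 ^ (n.choose 2)

/-- Size of case B. -/
def PartBCNT : Prop := ∀ n M u : ℕ, 4 * u + 2 ≤ n →
  (setB n M).card * 2 ^ (u * (n - u)) ≤
    (2 * n ^ 2 * NS n (M + 6)) ^ u * (n ^ 2 * 2 ^ (n.choose 2))

/-- Few small subsets. -/
def PartNS : Prop := ∃ n₀ : ℕ, ∀ n ≥ n₀, (NS n (n / 60 + 6)) ^ 4 ≤ 2 ^ n

/-- The final numerical estimate. -/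
def PartNUM : Prop := ∃ n₀ : ℕ, ∀ n ≥ n₀, ∀ a b N : ℕ,
  a * 2 ^ (n / 240 * (n - 2 * (n / 240))) ≤ n ^ 4 * n.factorial * 2 ^ (n.choose 2) →
  b * 2 ^ ((n - 2) / 4 * (n - (n - 2) / 4)) ≤
    (2 * n ^ 2 * N) ^ ((n - 2) / 4) * (n ^ 2 * 2 ^ (n.choose 2)) →
  N ^ 4 ≤ 2 ^ n →
  ((a + b : ℕ) : ℝ) ≤ (2 : ℝ) ^ ((199 / 200 : ℝ) * (n.choose 2 : ℝ))

/-- For `n ≠ 4` the deck determines the degrees. -/
def PartEDG : Prop := ∀ (n : ℕ), n ≠ 4 → ∀ (G H : SimpleGraph (Fin n))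
  (σ : Equiv.Perm (Fin n)), (∀ i, Nonempty (sw G i ≃g sw H (σ i))) → ∀ i, dg G i = dg H (σ i)

/-- The degree criterion. -/
def PartDEG : Prop := ∀ (n : ℕ), n ≠ 4 → ∀ G : SimpleGraph (Fin n),
  (∃ i, ∀ v, v ≠ i → (G.Adj i v → dg G i + dg G v ≠ n) ∧
    (¬ G.Adj i v → dg G i + dg G v + 2 ≠ n)) → Recon G

end W872.SV
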